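import Pool.Agent.H26.SrD
import Pool.Agent.H26.SrDefs

set_option autoImplicit false

namespace Pool.Agent.Results.MP_9f0ab0_gt.Unstable

open Pool.Agent.H26.SrDefs

theorem result : ∃ t : ℕ, 0 < t ∧ ∀ t' : ℕ, 0 < t' → ∃ d : ℕ, 2 ≤ d ∧ ∃ P Q : Set (V d),
    IsPolytope (d ^ t) P ∧ IsPolytope (d ^ t) Q ∧ IsSymm P ∧ IsSymm Q ∧
      IsIsotropic P ∧ IsIsotropic Q ∧
      (∀ θ : V d, ‖θ‖ = 1 → |relArea P θ - relArea Q θ| ≤ ((d : ℝ) ^ t')⁻¹) ∧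
      1 / 10 < Metric.hausdorffDist P Q :=
  Pool.Agent.H26.Sr.main

end Pool.Agent.Results.MP_9f0ab0_gt.Unstable
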